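import Mathlib
import Pool.Agent.H106Z.Uni

set_option autoImplicit false

/-- The equation x x^{-a} x^{a²} = c over C₇ ⋊ C₆ (c^a = c⁵) has a solution in a solvable overgroup. -/
theorem Pool.Agent.Results.MP_82f054_al.ATestCase.result
    (G : Type) [Group G] (c a : G) (h7 : orderOf c = 7) (h6 : orderOf a = 6)
    (hca : a⁻¹ * c * a = c ^ 5) (hgen : Subgroup.closure ({c, a} : Set G) = ⊤) :
    ∃ (K : Type) (_ : Group K), IsSolvable K ∧ ∃ ψ : G →* K, Function.Injective ψ ∧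
        ∃ x : K, x * ((ψ a)⁻¹ * x * ψ a)⁻¹ * ((ψ (a ^ 2))⁻¹ * x * ψ (a ^ 2)) = ψ c :=
  H106Uni.main G c a h7 h6 hca hgen
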